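import Pool.Agent.Lib.MP_755cca_al.E8.Vars
import Pool.Agent.Lib.MP_755cca_al.T48.Rels

/-! Kernel check of a quarter of the relations. -/

namespace Pool.Agent.Lib.MP_755cca_al.E8

open Cnt.T48

set_option maxRecDepth 100000

theorem ck_abaa : tchk RR_abaa = true := by decide +kernel

theorem ck_abab : tchk RR_abab = true := by decide +kernel

theorem ck_abba : tchk RR_abba = true := by decide +kernel

theorem ck_abbb : tchk RR_abbb = true := by decide +kernel

end Pool.Agent.Lib.MP_755cca_al.E8
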