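import Pool.Agent.Lib.MP_755cca_al.E8.Rels
import Pool.Agent.Lib.MP_755cca_al.Cnt.Asm

/-! The counting tree over the list of relations gives a missed class. -/

namespace Pool.Agent.Lib.MP_755cca_al.E8

open Cnt Cnt.T48

theorem d3_eq (x0 x1 x2 y0 y1 y2 z0 z1 z2 : ℤ) :
    d3 x0 x1 x2 y0 y1 y2 z0 z1 z2 = det3 x0 x1 x2 y0 y1 y2 z0 z1 z2 := by
  unfold d3 det3
  ring

/-- A good starting context for the list `RR` gives a missed class. -/
theorem miss_of_good0 (hG : Cnt.Good RR.get ctx0) : ∃ p a : ℤ, IsCoprime p a ∧ Low.Miss p a := by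
  refine miss_of_good hG fun a b c d f g h k l m hq => ?_
  rw [d3_eq] at hq
  refine ⟨X a b c d f g h k l m,
    fun n r hr => rels a b c d f g h k l m hq r (RT.mem_of_get _ n r hr), ?_, ?_⟩
  · rw [X_0, d3_eq]
  · rw [X_1, d3_eq]

end Pool.Agent.Lib.MP_755cca_al.E8
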