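import Mathlib

/-!
# Sparse integer polynomials for kernel computation

A monomial is coded by a natural number (a product of primes); a polynomial is a list of pairs
(code, coefficient); it is evaluated through a multiplicative function on the codes.
-/

namespace Pool.Agent.Lib.MP_755cca_al.E8

/-- Sparse polynomials. -/
abbrev Pol := List (ℕ × ℤ)

/-- The value of a polynomial. -/
def pev (F : ℕ → ℤ) : Pol → ℤ
  | [] => 0
  | t :: p => t.2 * F t.1 + pev F p

/-- Sum by merging. -/
noncomputable def padd (p : Pol) : Pol → Pol :=
  List.rec (motive := fun _ => Pol → Pol) (fun q => q)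
    (fun s p' ih => fun q => List.rec (motive := fun _ => Pol) (s :: p')
      (fun t q' ihq =>
        cond (Nat.blt s.1 t.1) (s :: ih (t :: q'))
          (cond (Nat.beq s.1 t.1)
            (cond (Nat.beq (Int.natAbs (Int.add s.2 t.2)) 0) (ih q')
              ((s.1, Int.add s.2 t.2) :: ih q'))
            (t :: ihq))) q) p

theorem pev_padd (F : ℕ → ℤ) (p : Pol) : ∀ q : Pol, pev F (padd p q) = pev F p + pev F q := by
  induction p with
  | nil => intro q; simp [padd, pev]
  | cons s p ih =>
    intro q
    induction q with
    | nil => simp [padd, pev]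
    | cons t q ihq =>
      have e : padd (s :: p) (t :: q) = cond (Nat.blt s.1 t.1) (s :: padd p (t :: q))
          (cond (Nat.beq s.1 t.1)
            (cond (Nat.beq (Int.natAbs (Int.add s.2 t.2)) 0) (padd p q)
              ((s.1, Int.add s.2 t.2) :: padd p q))
            (t :: padd (s :: p) q)) := rfl
      rw [e]
      cases h1 : Nat.blt s.1 t.1
      · cases h2 : Nat.beq s.1 t.1
        · simp only [cond_false, pev, ihq]; ring
        · have h3 : s.1 = t.1 := Nat.eq_of_beq_eq_true h2
          cases h4 : Nat.beq (Int.natAbs (Int.add s.2 t.2)) 0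
          · simp only [cond_false, cond_true, pev, ih, ← h3]
            have : Int.add s.2 t.2 = s.2 + t.2 := rfl
            rw [this]; ring
          · have h5 : s.2 + t.2 = 0 := Int.natAbs_eq_zero.1 (Nat.eq_of_beq_eq_true h4)
            simp only [cond_false, cond_true, pev, ih, ← h3]
            linear_combination (-(F s.1)) * h5
      · simp only [cond_true, pev, ih]; ring

/-- Product with one term. -/
noncomputable def pscale (s : ℕ × ℤ) (q : Pol) : Pol :=
  List.rec (motive := fun _ => Pol) [] (fun t _ ih => (Nat.mul s.1 t.1, Int.mul s.2 t.2) :: ih) q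

theorem pev_pscale {F : ℕ → ℤ} (hF : ∀ m n, F (m * n) = F m * F n) (s : ℕ × ℤ) (q : Pol) :
    pev F (pscale s q) = s.2 * F s.1 * pev F q := by
  induction q with
  | nil => simp [pscale, pev]
  | cons t q ih =>
    have e : pscale s (t :: q) = (s.1 * t.1, s.2 * t.2) :: pscale s q := rfl
    rw [e]
    simp only [pev, ih, hF]; ring

/-- The sum of the values of a list of polynomials. -/
def pevL (F : ℕ → ℤ) : List Pol → ℤ
  | [] => 0
  | p :: l => pev F p + pevL F l

/-- One round of pairwise merging. -/
noncomputable def pairs : List Pol → List Pol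
  | a :: b :: r => padd a b :: pairs r
  | l => l

theorem pevL_pairs (F : ℕ → ℤ) : ∀ l : List Pol, pevL F (pairs l) = pevL F l
  | [] => rfl
  | [_] => rfl
  | a :: b :: r => by
    simp only [pairs, pevL, pev_padd, pevL_pairs F r]; ring

/-- Sequential sum. -/
noncomputable def psumS : List Pol → Pol
  | [] => []
  | p :: l => padd p (psumS l)

theorem pev_psumS (F : ℕ → ℤ) : ∀ l : List Pol, pev F (psumS l) = pevL F l
  | [] => rfl
  | p :: l => by simp only [psumS, pevL, pev_padd, pev_psumS F l]

/-- Balanced sum. -/
noncomputable def psum : ℕ → List Pol → Pol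
  | 0, l => psumS l
  | _ + 1, [] => []
  | _ + 1, [a] => a
  | n + 1, a :: b :: r => psum n (padd a b :: pairs r)

theorem pev_psum (F : ℕ → ℤ) : ∀ (n : ℕ) (l : List Pol), pev F (psum n l) = pevL F l
  | 0, l => pev_psumS F l
  | _ + 1, [] => rfl
  | _ + 1, [a] => by simp [psum, pevL]
  | n + 1, a :: b :: r => by
    simp only [psum, pev_psum F n, pevL, pev_padd, pevL_pairs]; ring

/-- Product. -/
noncomputable def pmul (p q : Pol) : Pol := psum 12 (p.map fun s => pscale s q)

theorem pev_pmul {F : ℕ → ℤ} (hF : ∀ m n, F (m * n) = F m * F n) (p q : Pol) :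
    pev F (pmul p q) = pev F p * pev F q := by
  unfold pmul
  rw [pev_psum]
  induction p with
  | nil => simp [pevL, pev]
  | cons s p ih => simp only [List.map_cons, pevL, pev, ih, pev_pscale hF]; ring

/-- Equality test. -/
noncomputable def peq (p : Pol) : Pol → Bool :=
  List.rec (motive := fun _ => Pol → Bool)
    (fun q => List.rec (motive := fun _ => Bool) true (fun _ _ _ => false) q)
    (fun s _ ih => fun q => List.rec (motive := fun _ => Bool) false
      (fun t q' _ => cond (Nat.beq s.1 t.1)
        (cond (Nat.beq (Int.natAbs (Int.sub s.2 t.2)) 0) (ih q') false) false) q) p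

theorem eq_of_peq (p : Pol) : ∀ q : Pol, peq p q = true → p = q := by
  induction p with
  | nil =>
    intro q h
    cases q with
    | nil => rfl
    | cons t q => exact absurd h (by simp [peq])
  | cons s p ih =>
    intro q h
    cases q with
    | nil => exact absurd h (by simp [peq])
    | cons t q =>
      have e : peq (s :: p) (t :: q) = cond (Nat.beq s.1 t.1)
        (cond (Nat.beq (Int.natAbs (Int.sub s.2 t.2)) 0) (peq p q) false) false := rfl
      rw [e] at h
      cases h1 : Nat.beq s.1 t.1
      · rw [h1] at h; exact absurd h (by simp)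
      · cases h2 : Nat.beq (Int.natAbs (Int.sub s.2 t.2)) 0
        · rw [h1, h2] at h; exact absurd h (by simp)
        · rw [h1, h2] at h
          have h3 : s.1 = t.1 := Nat.eq_of_beq_eq_true h1
          have h4 : s.2 - t.2 = 0 := Int.natAbs_eq_zero.1 (Nat.eq_of_beq_eq_true h2)
          have h5 : s = t := Prod.ext h3 (sub_eq_zero.1 h4)
          rw [h5, ih q h]

/-- The completely multiplicative function with given values at the primes. -/
noncomputable def mF (th : ℕ → ℤ) (n : ℕ) : ℤ :=
  if n = 0 then 0 else n.factorization.prod fun r e => th r ^ e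

theorem mF_mul (th : ℕ → ℤ) (m n : ℕ) : mF th (m * n) = mF th m * mF th n := by
  unfold mF
  by_cases hm : m = 0
  · simp [hm]
  by_cases hn : n = 0
  · simp [hn]
  rw [if_neg (mul_ne_zero hm hn), if_neg hm, if_neg hn, Nat.factorization_mul hm hn,
    Finsupp.prod_add_index']
  · simp
  · intro a b c; exact pow_add _ _ _

theorem mF_one (th : ℕ → ℤ) : mF th 1 = 1 := by simp [mF]

theorem mF_prime (th : ℕ → ℤ) {r : ℕ} (hr : r.Prime) : mF th r = th r := by
  unfold mF
  rw [if_neg hr.ne_zero, hr.factorization, Finsupp.prod_single_index] <;> simp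

end Pool.Agent.Lib.MP_755cca_al.E8
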