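import Pool.Agent.Lib.MP_755cca_al.E8.Val
import Pool.Agent.Lib.MP_755cca_al.E8.CkAA
import Pool.Agent.Lib.MP_755cca_al.E8.CkAB
import Pool.Agent.Lib.MP_755cca_al.E8.CkBA
import Pool.Agent.Lib.MP_755cca_al.E8.CkBB

/-! All 3120 exchange relations hold at the points of the chart. -/

namespace Pool.Agent.Lib.MP_755cca_al.E8

open Cnt.T48

set_option maxRecDepth 100000

theorem ck_all : tchk RR = true := by
  simp only [RR, tchk, ck_aaaa, ck_aaab, ck_aaba, ck_aabb, ck_abaa, ck_abab, ck_abba, ck_abbb,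
    ck_baaa, ck_baab, ck_baba, ck_babb, ck_bbaa, ck_bbab, ck_bbba, ck_bbbb, Bool.and_true]
  decide +kernel

/-- The relations hold when the minor of `v1, v7, v8` is `1`. -/
theorem rels (a b c d f g h k l m : ℤ)
    (hq : det3 (1 + f * d + g * a) (f + g * b) g 1 h k m (1 + m * h) (l + m * k) = 1) :
    ∀ r ∈ RR.toList, Cnt.RelZ (X a b c d f g h k l m) r :=
  tchk_sound (mF_mul _) (mF_one _) ((X_q a b c d f g h k l m).trans hq) RR ck_all

end Pool.Agent.Lib.MP_755cca_al.E8
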