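import Pool.Agent.Lib.MP_755cca_al.E8.Vars

/-! The variables `0` and `1` and the constraint as determinants. -/

namespace Pool.Agent.Lib.MP_755cca_al.E8

/-- One variable. -/
def pv (r : ℕ) : Pol := [(r, 1)]

/-- The determinant of three vectors of polynomials. -/
noncomputable def pdet3 (x0 x1 x2 y0 y1 y2 z0 z1 z2 : Pol) : Pol :=
  padd (padd (padd (pmul (pmul x0 y1) z2) (pmul (pmul x1 y2) z0)) (pmul (pmul x2 y0) z1))
    (pscale (1, -1)
      (padd (padd (pmul (pmul x0 y2) z1) (pmul (pmul x1 y0) z2)) (pmul (pmul x2 y1) z0)))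

theorem pev_pv (F : ℕ → ℤ) (r : ℕ) : pev F (pv r) = F r := by simp [pv, pev]

theorem pev_pdet3 {F : ℕ → ℤ} (hF : ∀ m n, F (m * n) = F m * F n) (h1 : F 1 = 1)
    (x0 x1 x2 y0 y1 y2 z0 z1 z2 : Pol) :
    pev F (pdet3 x0 x1 x2 y0 y1 y2 z0 z1 z2) = det3 (pev F x0) (pev F x1) (pev F x2)
      (pev F y0) (pev F y1) (pev F y2) (pev F z0) (pev F z1) (pev F z2) := by
  simp only [pdet3, det3, pev_padd, pev_pmul hF, pev_pscale hF, h1]
  ring

noncomputable def w10 : Pol := padd (padd (pv 1) (pmul (pv 11) (pv 7))) (pmul (pv 13) (pv 2))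
noncomputable def w11 : Pol := padd (pv 11) (pmul (pv 13) (pv 3))
noncomputable def w20 : Pol := padd (pv 7) (pmul (pv 5) (pv 2))
noncomputable def w21 : Pol := padd (pv 1) (pmul (pv 5) (pv 3))
noncomputable def w81 : Pol := padd (pv 1) (pmul (pv 29) (pv 17))
noncomputable def w82 : Pol := padd (pv 23) (pmul (pv 29) (pv 19))

theorem pol_0 : TT.pol 0 = pdet3 w10 w11 (pv 13) w20 w21 (pv 5) (pv 29) w81 w82 :=
  eq_of_peq _ _ (by decide +kernel)

theorem pol_1 : TT.pol 1 = pdet3 w10 w11 (pv 13) (pv 2) (pv 3) (pv 1) (pv 29) w81 w82 :=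
  eq_of_peq _ _ (by decide +kernel)

theorem pol_q : PQ = pdet3 w10 w11 (pv 13) (pv 1) (pv 17) (pv 19) (pv 29) w81 w82 :=
  eq_of_peq _ _ (by decide +kernel)

section
variable (a b c d f g h k l m : ℤ)

theorem th_vals :
    mF (th a b c d f g h k l m) 2 = a ∧ mF (th a b c d f g h k l m) 3 = b ∧
    mF (th a b c d f g h k l m) 5 = c ∧ mF (th a b c d f g h k l m) 7 = d ∧
    mF (th a b c d f g h k l m) 11 = f ∧ mF (th a b c d f g h k l m) 13 = g ∧
    mF (th a b c d f g h k l m) 17 = h ∧ mF (th a b c d f g h k l m) 19 = k ∧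
    mF (th a b c d f g h k l m) 23 = l ∧ mF (th a b c d f g h k l m) 29 = m := by
  refine ⟨?_, ?_, ?_, ?_, ?_, ?_, ?_, ?_, ?_, ?_⟩ <;>
    (rw [mF_prime _ (by norm_num)]; simp [th])

/-- Variable `0` is the minor of `v1, v2, v8`. -/
theorem X_0 : X a b c d f g h k l m 0 =
    det3 (1 + f * d + g * a) (f + g * b) g (d + c * a) (1 + c * b) c
      m (1 + m * h) (l + m * k) := by
  obtain ⟨h2, h3, h5, h7, h11, h13, h17, h19, h23, h29⟩ := th_vals a b c d f g h k l m
  unfold X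
  rw [pol_0, pev_pdet3 (mF_mul _) (mF_one _)]
  simp only [w10, w11, w20, w21, w81, w82, pev_padd, pev_pmul (mF_mul _), pev_pv, mF_one,
    h2, h3, h5, h7, h11, h13, h17, h19, h23, h29]

/-- Variable `1` is the minor of `v1, v3, v8`. -/
theorem X_1 : X a b c d f g h k l m 1 =
    det3 (1 + f * d + g * a) (f + g * b) g a b 1 m (1 + m * h) (l + m * k) := by
  obtain ⟨h2, h3, h5, h7, h11, h13, h17, h19, h23, h29⟩ := th_vals a b c d f g h k l m
  unfold X
  rw [pol_1, pev_pdet3 (mF_mul _) (mF_one _)]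
  simp only [w10, w11, w81, w82, pev_padd, pev_pmul (mF_mul _), pev_pv, mF_one,
    h2, h3, h7, h11, h13, h17, h19, h23, h29]

/-- The constraint is the minor of `v1, v7, v8`. -/
theorem X_q : pev (mF (th a b c d f g h k l m)) PQ =
    det3 (1 + f * d + g * a) (f + g * b) g 1 h k m (1 + m * h) (l + m * k) := by
  obtain ⟨h2, h3, h5, h7, h11, h13, h17, h19, h23, h29⟩ := th_vals a b c d f g h k l m
  rw [pol_q, pev_pdet3 (mF_mul _) (mF_one _)]
  simp only [w10, w11, w81, w82, pev_padd, pev_pmul (mF_mul _), pev_pv, mF_one,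
    h2, h3, h7, h11, h13, h17, h19, h23, h29]

end

end Pool.Agent.Lib.MP_755cca_al.E8
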