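import Pool.Agent.Lib.MP_755cca_al.E8.Pol
import Pool.Agent.Lib.MP_755cca_al.Cnt.Defs

/-!
# The 128 cluster variables of type E8 as polynomials in ten integers

Chart: `v1 = (1 + f d + g a, f + g b, g)`, `v2 = (d + c a, 1 + c b, c)`, `v3 = (a, b, 1)`,
`v4 v5 v6` the standard basis, `v7 = (1, h, k)`, `v8 = (m, 1 + m h, l + m k)`.
The codes of `a b c d f g h k l m` are the primes `2 3 5 7 11 13 17 19 23 29`.
-/

set_option maxRecDepth 100000

namespace Pool.Agent.Lib.MP_755cca_al.E8

def P0 : Pol := [(5, -1), (23, 1), (91, 1), (345, 1), (377, -1), (385, -1), (551, 1), (598, 1), (1595, 1), (2465, -1), (2530, -1), (6279, -1), (8265, 1), (14326, 1), (26565, 1), (44863, 1), (60610, -1), (150423, -1), (189805, -1), (636405, 1)]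

def P1 : Pol := [(1, -1), (69, 1), (77, -1), (319, 1), (493, -1), (506, -1), (1653, 1), (5313, 1), (12122, -1), (37961, -1), (127281, 1)]

def P2 : Pol := [(13, -1), (55, 1)]

def P3 : Pol := [(5, -1), (91, 1), (385, -1)]

def P4 : Pol := [(1, 1), (15, 1), (26, 1), (110, -1), (273, -1), (1155, 1)]

def P5 : Pol := [(13, -1), (19, 1), (55, 1), (85, -1), (285, 1), (494, 1), (1547, 1), (2090, -1), (5187, -1), (6545, -1), (21945, 1)]

def P6 : Pol := [(11, 1)]

def P7 : Pol := [(1, -1), (77, -1)]

def P8 : Pol := [(3, 1), (22, -1), (231, 1)]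

def P9 : Pol := [(11, 1), (17, -1), (57, 1), (418, -1), (1309, -1), (4389, 1)]

def P10 : Pol := [(13, 1)]

def P11 : Pol := [(11, -1), (39, -1)]

def P12 : Pol := [(209, -1), (221, 1), (741, -1)]

def P13 : Pol := [(13, 1), (253, -1), (897, -1), (6061, -1), (6409, 1), (21489, -1)]

def P14 : Pol := [(1, 1), (26, 1), (77, 1)]

def P15 : Pol := [(13, -1), (19, 1), (494, 1), (1463, 1)]

def P16 : Pol := [(23, 1), (377, -1), (551, 1), (598, 1), (1771, 1), (14326, 1), (42427, 1)]

def P17 : Pol := [(11, 1), (17, -1), (39, 1), (442, -1), (1309, -1)]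

def P18 : Pol := [(1, -1), (26, -1), (77, -1), (319, 1), (493, -1), (1131, 1), (12818, -1), (37961, -1)]

def P19 : Pol := [(7, -1)]

def P20 : Pol := [(2, -1), (21, 1)]

def P21 : Pol := [(1, 1), (38, -1), (119, -1), (399, 1)]

def P22 : Pol := [(7, -1), (29, 1), (46, -1), (483, 1), (1102, -1), (3451, -1), (11571, 1)]

def P23 : Pol := [(5, 1)]

def P24 : Pol := [(1, -1), (15, -1)]

def P25 : Pol := [(19, -1), (85, 1), (285, -1)]

def P26 : Pol := [(5, 1), (23, -1), (345, -1), (551, -1), (2465, 1), (8265, -1)]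

def P27 : Pol := [(7, 1), (10, 1)]

def P28 : Pol := [(5, -1), (133, 1), (190, 1)]

def P29 : Pol := [(145, -1), (161, 1), (230, 1), (3857, 1), (5510, 1)]

def P30 : Pol := [(1, 1), (15, 1), (119, -1), (170, -1)]

def P31 : Pol := [(7, -1), (10, -1), (29, 1), (435, 1), (3451, -1), (4930, -1)]

def P32 : Pol := [(5, 1), (23, -1), (133, -1), (190, -1), (345, -1), (2737, 1), (3910, 1)]

def P33 : Pol := [(3, -1)]

def P34 : Pol := [(17, 1), (57, -1)]

def P35 : Pol := [(1, 1), (69, -1), (493, 1), (1653, -1)]

def P36 : Pol := [(2, 1)]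

def P37 : Pol := [(1, -1), (38, 1)]

def P38 : Pol := [(29, -1), (46, 1), (1102, 1)]

def P39 : Pol := [(3, 1), (34, -1)]

def P40 : Pol := [(2, -1), (87, 1), (986, -1)]

def P41 : Pol := [(1, 1), (38, -1), (69, -1), (782, 1)]

def P42 : Pol := [(19, 1)]

def P43 : Pol := [(23, 1), (551, 1)]

def P44 : Pol := [(17, -1)]

def P45 : Pol := [(1, -1), (493, -1)]

def P46 : Pol := [(19, -1), (391, 1)]

def P47 : Pol := [(29, 1)]

def P48 : Pol := [(23, -1)]

def P49 : Pol := [(1, -1), (69, 1)]

def P50 : Pol := [(1, -1), (69, 1), (782, -1), (1653, 1), (18734, -1)]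

def P51 : Pol := [(5, -1), (23, 1), (345, 1)]

def P52 : Pol := [(5, -1), (23, 1), (345, 1), (551, 1), (2737, -1), (3910, -1), (8265, 1), (65569, -1), (93670, -1)]

def P53 : Pol := [(7, 1), (46, 1), (483, -1)]

def P54 : Pol := [(7, 1), (29, -1), (46, 1), (435, -1), (690, 1), (1102, 1), (3451, 1), (4930, 1), (5474, -1), (7820, -1), (16530, 1), (131138, -1), (187340, -1)]

def P55 : Pol := [(1, -1), (38, 1), (399, -1), (782, -1), (8211, 1)]

def P56 : Pol := [(15, 1), (69, -1), (119, -1), (170, -1), (493, 1), (1035, -1), (1653, -1), (7395, 1), (8211, 1), (11730, 1), (24795, -1), (58667, -1), (83810, -1), (196707, 1), (281010, 1)]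

def P57 : Pol := [(23, 1), (133, 1), (2737, -1)]

def P58 : Pol := [(5, -1), (23, 1), (133, 1), (190, 1), (345, 1), (2465, -1), (8265, 1), (9177, -1), (13110, -1), (65569, 1), (93670, 1), (219849, -1), (314070, -1)]

def P59 : Pol := [(7, 1), (29, -1), (3451, 1)]

def P60 : Pol := [(7, 1), (10, 1), (29, -1), (483, -1), (690, -1), (3451, 1), (4930, 1), (11571, -1), (16530, -1)]

def P61 : Pol := [(1, -1), (119, 1)]

def P62 : Pol := [(1, -1), (119, 1), (170, 1), (399, -1), (570, -1)]

def P63 : Pol := [(13, -1), (253, 1), (897, 1)]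

def P64 : Pol := [(13, -1), (253, 1), (391, -1), (897, 1), (6061, 1), (9367, -1), (10166, -1), (21489, 1), (30107, -1), (243542, -1), (721259, -1)]

def P65 : Pol := [(1, 1), (69, -1), (77, 1), (506, 1), (5313, -1)]

def P66 : Pol := [(1, 1), (77, 1), (319, -1), (493, 1), (506, 1), (782, -1), (1131, -1), (1794, 1), (12122, 1), (12818, 1), (18734, -1), (20332, -1), (37961, 1), (42978, 1), (60214, -1), (487084, -1), (1442518, -1)]

def P67 : Pol := [(11, -1), (57, -1), (418, 1), (1173, 1), (4389, -1), (8602, -1), (90321, 1)]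

def P68 : Pol := [(17, -1), (39, 1), (442, -1), (759, -1), (1173, 1), (1309, -1), (2691, -1), (5423, 1), (8381, -1), (18183, -1), (19227, 1), (28101, 1), (30498, 1), (64467, -1), (90321, 1), (217906, -1), (645337, -1), (730626, 1), (2163777, 1)]

def P69 : Pol := [(19, 1), (253, 1), (391, -1), (1463, 1), (30107, -1)]

def P70 : Pol := [(13, -1), (19, 1), (253, 1), (494, 1), (897, 1), (1311, -1), (1463, 1), (6409, -1), (9367, 1), (21489, 1), (31407, -1), (34086, -1), (100947, -1), (243542, 1), (721259, 1), (816582, -1), (2418339, -1)]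

def P71 : Pol := [(1, 1), (26, 1), (69, -1), (77, 1), (319, -1), (493, 1), (1653, -1), (1794, -1), (5313, -1), (12818, 1), (37961, 1), (42978, -1), (127281, -1)]

def P72 : Pol := [(1, 1), (77, 1), (319, -1), (493, 1), (37961, 1)]

def P73 : Pol := [(11, -1), (17, 1), (1309, 1)]

def P74 : Pol := [(11, -1), (17, 1), (57, -1), (442, 1), (1309, 1), (1482, -1), (4389, -1)]

def P75 : Pol := [(5, 1), (23, -1), (91, -1), (345, -1), (385, 1), (598, -1), (2530, 1), (6279, 1), (26565, -1)]

def P76 : Pol := [(5, 1), (91, -1), (385, 1), (1595, -1), (1771, 1), (2465, 1), (2530, 1), (2737, -1), (3910, -1), (5655, -1), (6279, 1), (8970, 1), (42427, 1), (60610, 1), (64090, 1), (65569, -1), (71162, -1), (93670, -1), (101660, -1), (150423, 1), (189805, 1), (210749, -1), (214890, 1), (301070, -1), (1704794, -1), (2435420, -1), (5048813, -1), (7212590, -1)]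

def P77 : Pol := [(13, 1), (19, -1), (55, -1), (285, -1), (391, 1), (494, -1), (2090, 1), (5187, 1), (5865, 1), (10166, 1), (21945, -1), (43010, -1), (106743, -1), (451605, 1)]

def P78 : Pol := [(13, 1), (85, -1), (195, 1), (253, -1), (391, 1), (897, -1), (2210, -1), (3795, -1), (5865, 1), (6061, -1), (6545, -1), (9367, 1), (10166, 1), (13455, -1), (21489, -1), (27115, 1), (30107, 1), (41905, -1), (90915, -1), (96135, 1), (140505, 1), (152490, 1), (243542, 1), (322335, -1), (451605, 1), (721259, 1), (1089530, -1), (3226685, -1), (3653130, 1), (10818885, 1)]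

def P79 : Pol := [(95, 1), (299, -1), (1265, 1), (1729, -1), (1955, -1), (7315, 1), (35581, 1), (150535, -1)]

def P80 : Pol := [(65, -1), (95, 1), (437, -1), (1265, 1), (2470, 1), (4485, 1), (6555, -1), (7163, 1), (7315, 1), (10469, -1), (11362, -1), (32045, -1), (33649, -1), (46835, 1), (107445, 1), (157035, -1), (170430, -1), (272194, -1), (504735, -1), (806113, -1), (1217710, 1), (3606295, 1), (4082910, -1), (12091695, -1)]

def P81 : Pol := [(5, 1), (91, -1), (377, 1), (385, 1), (1595, -1), (2465, 1), (44863, -1), (189805, 1)]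

def P82 : Pol := [(5, 1), (23, -1), (130, 1), (345, -1), (377, 1), (385, 1), (551, -1), (598, -1), (1595, -1), (1771, -1), (2465, 1), (8265, -1), (8970, -1), (14326, -1), (26565, -1), (42427, -1), (64090, 1), (189805, 1), (214890, -1), (636405, -1)]

def P83 : Pol := [(13, 1), (55, -1), (85, 1), (1547, -1), (6545, 1)]

def P84 : Pol := [(13, 1), (19, -1), (55, -1), (85, 1), (285, -1), (494, -1), (1463, -1), (2210, 1), (6545, 1), (7410, -1), (21945, -1)]

def P85 : Pol := [(15, 1), (26, 1), (38, -1), (69, -1), (110, -1), (273, -1), (570, -1), (782, 1), (988, -1), (1035, -1), (1155, 1), (1794, -1), (4180, 1), (7590, 1), (10374, 1), (11730, 1), (18837, 1), (20332, 1), (43890, -1), (79695, -1), (86020, -1), (213486, -1), (903210, 1)]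

def P86 : Pol := [(1, -1), (77, -1), (119, 1), (273, -1), (319, 1), (493, -1), (506, -1), (782, 1), (1131, 1), (1794, -1), (3094, 1), (5313, 1), (8211, -1), (9163, 1), (12122, -1), (12818, -1), (18734, 1), (18837, 1), (20332, 1), (37961, -2), (42978, -1), (58667, 1), (60214, 1), (127281, 1), (134589, -1), (196707, -1), (213486, -1), (451269, 1), (487084, 1), (632247, -1), (1442518, 1), (1525342, 1), (4517359, 1), (5114382, -1), (15146439, -1)]

def P87 : Pol := [(5, -1), (23, 1), (91, 1), (190, 1), (345, 1), (385, -1), (3458, -1), (3910, -1), (6279, -1), (14630, 1), (26565, 1), (71162, 1), (301070, -1)]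

def P88 : Pol := [(23, 1), (91, 1), (133, -1), (377, -1), (551, 1), (598, 1), (874, -1), (3458, -1), (6279, -1), (9177, 1), (10241, -1), (14326, 2), (20938, -1), (22724, -1), (42427, 1), (44863, 1), (65569, -1), (67298, -1), (150423, -1), (219849, 1), (238602, 1), (544388, -1), (706629, 1), (1612226, -1), (1704794, -1), (5048813, -1), (5716074, 1), (16928373, 1)]

def P89 : Pol := [(10, 1), (29, -1), (182, -1), (435, -1), (770, 1), (4930, 1), (7917, 1), (33495, -1), (89726, -1), (379610, 1)]

def P90 : Pol := [(7, -1), (46, -1), (182, -1), (483, 1), (539, -1), (754, 1), (1102, -1), (1196, -1), (2233, 1), (3451, -1), (3542, -1), (11571, 1), (12558, 1), (28652, -1), (37191, 1), (84854, -1), (89726, -1), (265727, -1), (300846, 1), (890967, 1)]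

def P91 : Pol := [(1, -1), (15, -1), (170, 1), (273, 1), (1155, -1), (3094, -1), (13090, 1)]

def P92 : Pol := [(26, 1), (38, -1), (77, 1), (119, -1), (399, 1), (988, -1), (2926, -1), (3094, -1), (9163, -1), (10374, 1), (30723, 1)]

def P93 : Pol := [(13, -1), (19, 1), (55, 1), (391, -1), (494, 1), (897, 1), (2090, -1), (3795, -1), (10166, -1), (43010, 1)]

def P94 : Pol := [(19, 1), (391, -1), (1463, 1), (1547, -1), (5187, 1), (6061, -1), (6409, 1), (9614, 1), (10166, -1), (21489, -1), (34086, 1), (100947, -1), (106743, 1), (230318, 1), (243542, -1), (357903, -1), (721259, 1), (762671, -1), (816582, 1), (2418339, -1), (2557191, 2), (8574111, -1)]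

def P95 : Pol := [(1, 1), (26, 1), (110, -1), (493, 1), (1131, -1), (4785, 1), (12818, 1), (54230, -1)]

def P96 : Pol := [(1, 1), (77, 1), (273, 1), (319, -1), (493, 1), (506, 1), (1131, -1), (1794, 1), (5313, -1), (12122, 1), (18837, -1), (37961, 1), (42978, 1), (127281, -1), (134589, 1), (451269, -1)]

def P97 : Pol := [(17, 1), (39, -1), (165, 1), (442, 1), (1870, -1)]

def P98 : Pol := [(11, -1), (17, 1), (39, -1), (418, 1), (1309, 1), (1482, 1), (4389, -1), (4641, 1), (15561, -1)]

def P99 : Pol := [(23, -1), (91, -1), (377, 1), (551, -1), (598, -1), (6279, 1), (14326, -1), (44863, -1), (150423, 1)]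

def P100 : Pol := [(23, -1), (377, 1), (551, -1), (598, -1), (1595, -1), (2530, 1), (14326, -1), (60610, 1)]

def P101 : Pol := [(13, 1), (19, -1), (55, -1), (494, -1), (2090, 1)]

def P102 : Pol := [(13, 1), (19, -1), (494, -1), (1547, -1), (5187, 1)]

def P103 : Pol := [(1, -1), (26, -1), (110, 1)]

def P104 : Pol := [(1, -1), (26, -1), (273, 1)]

def P105 : Pol := [(5, 1), (23, -1), (91, -1), (190, -1), (345, -1), (377, 1), (385, 1), (551, -1), (1595, -1), (2465, 1), (3458, 1), (3910, 1), (6279, 1), (14326, -1), (14630, -1), (26013, -1), (26565, -1), (44863, -1), (60610, 1), (71162, -1), (93670, -1), (110055, 1), (170085, -1), (189805, 1), (294814, 1), (301070, 1), (1247290, -1), (1704794, 1), (1927630, 1), (3095547, 1), (7212590, -1), (13096545, -1), (35082866, -1), (148427510, 1)]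

def P106 : Pol := [(5, 1), (23, -1), (91, -1), (345, -1), (377, 1), (385, 1), (551, -1), (598, -1), (1595, -1), (2465, 2), (2530, 1), (2737, -1), (3910, -1), (5655, -1), (6279, 2), (8265, -1), (8970, 1), (14326, -1), (26565, -1), (44863, -1), (60610, 1), (64090, 1), (65569, -1), (71162, -1), (93670, -1), (101660, -1), (110055, 1), (122199, -1), (150423, 2), (170085, -1), (174570, -1), (188853, 1), (189805, 2), (210749, -1), (214890, 1), (269790, 1), (301070, -1), (390195, 1), (433251, -1), (618930, -1), (636405, -1), (786335, -1), (873103, 1), (1215245, 1), (1247290, 1), (1349341, -1), (1704794, -1), (1927630, -1), (2435420, -1), (2636535, 1), (2787915, -1), (2927463, -2), (3095547, 1), (4074645, -1), (4182090, -2), (4524261, 2), (4910178, 1), (5048813, -1), (6463230, 2), (7014540, 1), (7212590, -1), (9347715, 1), (10379187, -2), (13096545, -1), (14541681, 1), (14827410, -2), (20773830, 1), (20916511, 1), (29880730, 1), (31596370, 1), (32325517, -1), (35082866, -1), (46179310, -1), (50118380, -1), (70131831, -1),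 (74158539, 1), (93573865, 1), (100188330, -1), (103899257, -1), (108385557, 1), (117630786, 2), (148427510, -1), (154836510, 1), (168043980, 2), (248649219, -1), (313747665, -1), (348368097, 2), (355213170, -1), (497668710, 2), (840463442, -1), (1200662060, -1), (2489064809, -1), (2818024482, 1), (3555806870, -1), (4025749260, 1), (8345687889, 1), (11922411270, 1)]

def P107 : Pol := [(91, 1), (377, -1), (551, 1), (598, 1), (1771, -1), (6279, -2), (7337, 1), (11339, -1), (11638, -1), (14326, 1), (26013, 1), (41262, -1), (44863, 1), (122199, 1), (150423, -1), (278806, -1), (433251, 1), (873103, -1), (988494, -1), (2927463, 1), (3095547, -1), (10379187, 1)]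

def P108 : Pol := [(13, 1), (19, -1), (55, -1), (85, 1), (494, -1), (897, -1), (1547, -1), (2090, 1), (3230, -1), (3795, 1), (5865, -1), (6545, 1), (10166, 1), (43010, -1), (58786, 1), (66470, 1), (106743, 1), (248710, -1), (451605, -1), (1209754, -1), (5118190, 1)]

def P109 : Pol := [(13, -1), (19, 1), (253, 1), (391, -1), (494, 1), (897, 1), (1547, 1), (5187, -1), (9614, -1), (30107, -1), (34086, -1), (100947, 1), (106743, -1), (357903, 1)]

def P110 : Pol := [(13, -1), (19, 1), (85, 1), (195, -1), (253, 1), (391, -1), (494, 1), (897, 1), (1463, 1), (2210, 1), (2261, -1), (3230, -1), (3795, 1), (5187, 1), (5865, -1), (6545, 1), (7410, 1), (10166, -1), (13455, 1), (27115, -1), (30107, -1), (41905, 1), (58786, -1), (83980, -1), (90915, 1), (96135, -1), (100947, -1), (140505, -1), (144210, -1), (152490, -1), (156009, 1), (174097, -1), (222870, 1), (248710, -1), (322335, 1), (357903, -1), (451605, -1), (511290, -1), (721259, 1), (1030370, 1), (1089530, 1), (1114673, -1), (1592390, -1), (2418339, -1), (2557191, 1),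 (3226685, 1), (3454770, -1), (3737433, 1), (4056234, 1), (5339190, 1), (5794620, 1), (8574111, -1), (10818885, -1), (12012693, 1), (12248730, -1), (17160990, 1), (28981498, -1), (41402140, -1), (85829821, -1), (97173258, 1), (122614030, -1), (138818940, 1), (287782341, 1), (411117630, 1)]

def P111 : Pol := [(1, -1), (26, -1), (110, 1), (170, -1), (1131, 1), (3094, 1), (4785, -1), (7395, 1), (12818, -1), (13090, -1), (54230, 1), (83810, -1), (134589, -1), (569415, 1), (1525342, 1), (6453370, -1)]

def P112 : Pol := [(1, -1), (77, -1), (273, -1), (506, -1), (1794, -1), (5313, 1), (18837, 1)]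

def P113 : Pol := [(1, 1), (26, 1), (77, 1), (119, -1), (170, -1), (273, 1), (319, -1), (390, 1), (493, 1), (1131, -1), (3094, -1), (4420, -1), (5313, -1), (7590, -1), (8211, 1), (9163, -1), (11730, 1), (12818, 1), (13090, -1), (18837, -1), (26910, -1), (37961, 2), (54230, 1), (58667, -1), (83810, -1), (127281, -1), (134589, 1), (181830, -1), (192270, 1), (196707, 1), (213486, 1), (281010, 1), (304980, 1), (451269, -1), (632247, 1), (644670, -1), (903210, 1), (1525342, -1), (2179060, -1), (4517359, -1), (5114382, 1), (6453370, -1), (7306260, 1), (15146439, 1), (21637770, 1)]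

def P114 : Pol := [(23, 1), (91, 1), (598, 1), (6279, -1)]

def P115 : Pol := [(5, 1), (23, -1), (91, -1), (345, -1), (385, 1), (551, -1), (3910, 1), (6279, 1), (8265, -1), (26565, -1), (71162, -1), (93670, 1), (150423, 1), (301070, 1), (636405, -1), (1704794, -1), (7212590, 1)]

def P116 : Pol := [(23, -1), (91, -1), (130, -1), (133, 1), (190, 1), (377, 1), (551, -1), (598, -1), (2530, 1), (3458, 1), (4940, 1), (6279, 1), (8970, 1), (9177, -1), (10241, 1), (13110, -1), (14326, -1), (14630, 1), (42427, -1), (44863, -1), (64090, -1), (65569, 1), (93670, 1), (150423, 1), (214890, 1), (219849, -1), (238602, -1), (314070, -1), (340860, -1), (706629, -1), (1009470, -1), (1704794, 1), (2435420, 1), (5048813, 1), (5716074, -1), (7212590, 1), (8165820, -1), (16928373, -1), (24183390, -1)]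

def P117 : Pol := [(13, 1), (55, -1), (391, 1), (897, -1), (3795, 1), (9367, 1), (10166, 1), (21489, -1), (43010, -1), (90915, 1), (243542, 1), (1030370, -1)]

def P118 : Pol := [(13, -1), (19, 1), (391, -1), (494, 1), (5187, -1), (10166, -1), (106743, 1)]

def P119 : Pol := [(13, -1), (85, 1), (253, 1), (285, -1), (391, -1), (897, 1), (1311, 1), (2210, 1), (5865, -1), (6061, 1), (6545, 1), (7410, -1), (9367, -1), (10166, -1), (19665, 1), (21945, -1), (27115, -1), (30107, -1), (31407, 1), (34086, 1), (41905, 1), (90915, 1), (100947, 1), (140505, -2), (152490, -1), (243542, -1), (451605, -1), (471105, 1), (511290, 1), (721259, -1), (816582, 1), (1089530, 1), (1514205, 1), (2418339, 1), (3226685, 1), (3653130, -2), (10818885, -2), (12248730, 1), (36275085, 1)]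

def P120 : Pol := [(1, -1), (69, 1), (399, 1), (506, -1), (2926, -1), (5313, 1), (8211, -1), (30723, 1), (60214, 1), (632247, -1)]

def P121 : Pol := [(1, -1), (493, -1), (782, 1), (1131, 1), (1794, -1), (4785, -1), (7590, 1), (12818, -1), (18734, 1), (20332, 1), (42978, -1), (54230, 1), (86020, -1), (181830, 1), (487084, 1), (2060740, -1)]

def P122 : Pol := [(1, 1), (69, -1), (77, 1), (119, -1), (319, -1), (399, 1), (493, 1), (506, 1), (782, -1), (1653, -1), (2622, 1), (3094, -1), (5313, -1), (8211, 1), (9163, -1), (10374, 1), (12122, 1), (12818, 1), (18734, -1), (20332, -1), (27531, -1), (30723, 1), (37961, 2), (42978, -1), (58667, -1), (60214, -1), (62814, 1), (68172, 1), (127281, -2), (196707, 2), (201894, 1), (213486, 1), (487084, -1), (632247, 1), (659547, -1), (715806, -1), (1442518, -1), (1525342, -1), (1633164, 1), (2119887, -1), (4517359, -1), (4836678, 1), (5114382, 2), (15146439, 2), (17148222, -1), (50785119, -1)]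

def P123 : Pol := [(5, -1), (23, 1), (133, 1), (345, 1), (598, 1), (1995, 1), (2530, -1), (2737, -1), (3458, 1), (6279, -1), (14630, -1), (26565, 1), (36309, -1), (41055, -1), (71162, -1), (153615, 1), (301070, 1), (747201, 1), (3161235, -1)]

def P124 : Pol := [(5, 1), (23, -1), (91, -1), (345, -1), (377, 1), (385, 1), (551, -1), (598, -1), (1595, -1), (2530, 1), (2737, 1), (3910, 1), (5655, 1), (8265, -1), (8970, -1), (14326, -1), (23925, -1), (37950, 1), (44863, -1), (60610, 1), (64090, -1), (65569, 1), (71162, 1), (93670, 1), (101660, 1), (189805, 1), (214890, -1), (271150, 1), (301070, -1), (430100, -1), (909150, 1), (1704794, 1), (2435420, 1), (7212590, -1), (10303700, -1)]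

def P125 : Pol := [(5, 1), (23, -1), (91, -1), (133, 1), (345, -1), (377, 1), (385, 1), (551, -1), (595, -1), (598, -1), (874, 1), (1595, -1), (1995, 1), (2465, 1), (2530, 1), (3458, 1), (3910, -1), (6279, 1), (8265, -1), (9177, -1), (10241, 1), (13110, 1), (14326, -2), (15470, -1), (20938, 1), (22724, 1), (26565, -1), (41055, 1), (42427, -1), (44863, -1), (45815, -1), (51870, 1), (60610, 1), (64090, 1), (65569, 1), (67298, 1), (93670, -1), (101660, -1), (137655, -1), (150423, 1), (153615, 1), (189805, 2), (214890, -1), (219849, -1), (238602, -1), (293335, -1), (301070, -1), (314070, 1), (340860, 1), (544388, 1), (636405, -2), (706629, -1), (983535, 2), (1009470, 1), (1067430, 1), (1612226, 1), (1704794, 1), (2435420, -1), (3161235, 1), (3297735, -1), (3579030, -1), (5048813, 1), (5716074, -1), (7212590, -1), (7626710, -1), (8165820, 1), (10599435, -1), (16928373, -1), (22586795, -1), (24183390, 1), (25571910, 2), (75732195, 2), (85741110, -1), (253925595, -1)]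

def P126 : Pol := [(13, -1), (19, 1), (253, 1), (285, 1), (391, -1), (494, 1), (1463, 1), (2090, -1), (3795, 1), (5187, -1), (5865, -1), (6578, 1), (10166, -1), (21945, 2), (27830, -1), (30107, -1), (38038, 1), (43010, 1), (69069, -1), (106743, 1), (160930, -1), (292215, 1), (399399, -1), (451605, -2), (782782, -1), (1689765, 1), (3311770, 1), (8219211, 1), (34773585, -1)]

def P127 : Pol := [(55, 1), (253, -1), (391, 1), (897, -1), (1001, -1), (4147, 1), (4235, 1), (6061, -1), (6409, -1), (6578, -1), (9367, 1), (10166, 2), (14703, 1), (17545, -1), (21489, -1), (23322, -1), (27115, 1), (27830, 1), (30107, 1), (43010, -1), (62205, -1), (98670, 1), (157586, -1), (166634, -1), (243542, 2), (264316, 1), (493493, -1), (558714, -1), (666710, 1), (704990, 1), (721259, 1), (782782, 1), (1030370, -1), (1118260, -1), (2087855, 1), (2363790, 1), (3311770, -1), (6332092, 1), (18752734, 1), (26789620, -1), (79338490, -1)]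

def P128 : Pol := [(13, -1), (19, 1), (253, 1), (391, -1), (494, 1), (897, 1), (1463, 2), (1547, -1), (5187, 1), (9614, 1), (10166, -2), (30107, -1), (34086, 1), (38038, 1), (40222, -1), (100947, -1), (106743, 1), (112651, 1), (119119, -1), (134862, 1), (157586, -1), (166634, 1), (230318, 1), (243542, -1), (249964, 1), (264316, -1), (357903, -1), (399399, 1), (466697, -1), (493493, 1), (558714, -1), (721259, 1), (740278, 1), (762671, -1), (782782, -1), (816582, 1), (886236, 1), (1654653, -1), (2418339, -1), (2557191, 2), (2775318, 1), (5988268, 1), (6332092, -1), (7772919, -1), (8219211, 1), (8574111, -1), (9305478, -1), (17734486, 1), (19829446, -1), (21231132, 1), (27558531, -1), (55536943, 1), (58725667, -1), (66486966, 2), (186212103, -1), (196903707, 2), (222926886, -1), (660206547, -1)]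

/-- The minor of `v1, v7, v8`. -/
def PQ : Pol := [(13, 1), (19, -1), (253, -1), (391, 1), (494, -1), (897, -1), (1463, -1), (10166, 1), (30107, 1)]

/-- Tables of polynomials with weights. -/
inductive PT where
  | nil
  | node (p : Pol) (w : ℕ) (l h : PT)

/-- Lookup of the polynomial. -/
def PT.pol : PT → ℕ → Pol
  | .nil, _ => []
  | .node p _ l h, k =>
    cond (Nat.beq k 0) p (cond (Nat.beq (k % 2) 1) (l.pol (k / 2)) (h.pol (k / 2 - 1)))

/-- Lookup of the weight. -/
def PT.wt : PT → ℕ → ℕ
  | .nil, _ => 0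
  | .node _ w l h, k =>
    cond (Nat.beq k 0) w (cond (Nat.beq (k % 2) 1) (l.wt (k / 2)) (h.wt (k / 2 - 1)))

/-- The table. -/
def TT : PT :=
  (.node P0 1 (.node P1 1 (.node P3 1 (.node P7 1 (.node P15 2 (.node P31 0 (.node P63 2 (.node P127 2 .nil .nil) .nil) (.node P95 1 .nil .nil)) (.node P47 0 (.node P79 2 .nil .nil) (.node P111 1 .nil .nil))) (.node P23 1 (.node P39 1 (.node P71 1 .nil .nil) (.node P103 1 .nil .nil)) (.node P55 1 (.node P87 1 .nil .nil) (.node P119 2 .nil .nil)))) (.node P11 2 (.node P19 0 (.node P35 1 (.node P67 2 .nil .nil) (.node P99 1 .nil .nil)) (.node P51 1 (.node P83 2 .nil .nil) (.node P115 1 .nil .nil))) (.node P27 0 (.node P43 1 (.node P75 1 .nil .nil) (.node P107 1 .nil .nil)) (.node P59 0 (.node P91 1 .nil .nil) (.node P123 1 .nil .nil))))) (.node P5 2 (.node P9 2 (.node P17 2 (.node P33 1 (.node P65 1 .nil .nil) (.node P97 2 .nil .nil)) (.node P49 1 (.node P81 1 .nil .nil) (.node P113 1 .nil .nil))) (.node P25 2 (.node P41 1 (.node P73 2 .nil .nil) (.node P105 1 .nil .nil))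 (.node P57 1 (.node P89 0 .nil .nil) (.node P121 1 .nil .nil)))) (.node P13 2 (.node P21 1 (.node P37 1 (.node P69 2 .nil .nil) (.node P101 2 .nil .nil)) (.node P53 0 (.node P85 1 .nil .nil) (.node P117 2 .nil .nil))) (.node P29 0 (.node P45 1 (.node P77 2 .nil .nil) (.node P109 2 .nil .nil)) (.node P61 1 (.node P93 2 .nil .nil) (.node P125 1 .nil .nil)))))) (.node P2 2 (.node P4 1 (.node P8 1 (.node P16 1 (.node P32 1 (.node P64 2 (.node P128 2 .nil .nil) .nil) (.node P96 1 .nil .nil)) (.node P48 1 (.node P80 2 .nil .nil) (.node P112 1 .nil .nil))) (.node P24 1 (.node P40 0 (.node P72 1 .nil .nil) (.node P104 1 .nil .nil)) (.node P56 1 (.node P88 1 .nil .nil) (.node P120 1 .nil .nil)))) (.node P12 3 (.node P20 0 (.node P36 0 (.node P68 2 .nil .nil) (.node P100 1 .nil .nil)) (.node P52 1 (.node P84 2 .nil .nil) (.node P116 1 .nil .nil))) (.node P28 1 (.node P44 2 (.node P76 1 .nil .nil) (.node P108 2 .nil .nil)) (.node P60 0 (.node P92 1 .nil .nil) (.node P124 1 .nil .nil))))) (.node P6 2 (.node P10 2 (.node P18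 1 (.node P34 2 (.node P66 1 .nil .nil) (.node P98 2 .nil .nil)) (.node P50 1 (.node P82 1 .nil .nil) (.node P114 1 .nil .nil))) (.node P26 1 (.node P42 2 (.node P74 2 .nil .nil) (.node P106 1 .nil .nil)) (.node P58 1 (.node P90 0 .nil .nil) (.node P122 1 .nil .nil)))) (.node P14 1 (.node P22 0 (.node P38 0 (.node P70 2 .nil .nil) (.node P102 2 .nil .nil)) (.node P54 0 (.node P86 1 .nil .nil) (.node P118 2 .nil .nil))) (.node P30 1 (.node P46 2 (.node P78 2 .nil .nil) (.node P110 2 .nil .nil)) (.node P62 1 (.node P94 2 .nil .nil) (.node P126 2 .nil .nil)))))))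

/-- The values at the ten primes. -/
def th (a b c d f g h k l m : ℤ) (r : ℕ) : ℤ :=
  if r = 2 then a else if r = 3 then b else if r = 5 then c else if r = 7 then d else
  if r = 11 then f else if r = 13 then g else if r = 17 then h else if r = 19 then k else
  if r = 23 then l else m

/-- The value of variable `i` at the point of the chart. -/
noncomputable def X (a b c d f g h k l m : ℤ) (i : ℕ) : ℤ :=
  pev (mF (th a b c d f g h k l m)) (TT.pol i)

/-- The determinant of three vectors (columns or rows). -/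
def det3 (x0 x1 x2 y0 y1 y2 z0 z1 z2 : ℤ) : ℤ :=
  x0 * y1 * z2 + x1 * y2 * z0 + x2 * y0 * z1 - x0 * y2 * z1 - x1 * y0 * z2 - x2 * y1 * z0

/-- The product of the variables of a monomial, times a power of `PQ`. -/
noncomputable def pmono (e : ℕ) : List ℕ → Pol
  | [] => Nat.rec [(1, 1)] (fun _ ih => pmul ih PQ) e
  | i :: M => pmul (pmono e M) (TT.pol i)

/-- The weight of a monomial. -/
def wmono : List ℕ → ℕ
  | [] => 0
  | i :: M => TT.wt i + wmono M

/-- The check of one relation. -/
noncomputable def rchk (r : Cnt.Rel) : Bool :=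
  peq (padd (pmono ((wmono r.2.2 + r.1.length) - (wmono r.1 + r.2.2.length)) r.1)
    (pmono ((wmono r.2.2 + r.2.1.length) - (wmono r.2.1 + r.2.2.length)) r.2.1)) (pmono 0 r.2.2)

/-- The check of a tree of relations. -/
noncomputable def tchk : Cnt.RT → Bool
  | .nil => true
  | .node r l h => rchk r && (tchk l && tchk h)

theorem pev_pmono {F : ℕ → ℤ} (hF : ∀ m n, F (m * n) = F m * F n) (h1 : F 1 = 1)
    (hq : pev F PQ = 1) (e : ℕ) :
    ∀ M : List ℕ, pev F (pmono e M) = Cnt.evZ (fun i => pev F (TT.pol i)) M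
  | [] => by
    induction e with
    | zero => simp [pmono, pev, h1, Cnt.evZ]
    | succ e ih =>
      have e1 : pmono (e + 1) [] = pmul (pmono e []) PQ := rfl
      rw [e1, pev_pmul hF, ih, hq, mul_one]
  | i :: M => by
    have e1 : pmono e (i :: M) = pmul (pmono e M) (TT.pol i) := rfl
    rw [e1, pev_pmul hF, pev_pmono hF h1 hq e M]
    simp [Cnt.evZ, mul_comm]

theorem rchk_sound {F : ℕ → ℤ} (hF : ∀ m n, F (m * n) = F m * F n) (h1 : F 1 = 1)
    (hq : pev F PQ = 1) {r : Cnt.Rel} (h : rchk r = true) :
    Cnt.RelZ (fun i => pev F (TT.pol i)) r := by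
  have := congrArg (pev F) (eq_of_peq _ _ h)
  rw [pev_padd, pev_pmono hF h1 hq, pev_pmono hF h1 hq, pev_pmono hF h1 hq] at this
  exact this

theorem tchk_sound {F : ℕ → ℤ} (hF : ∀ m n, F (m * n) = F m * F n) (h1 : F 1 = 1)
    (hq : pev F PQ = 1) : ∀ t : Cnt.RT, tchk t = true →
      ∀ r ∈ t.toList, Cnt.RelZ (fun i => pev F (TT.pol i)) r
  | .nil, _, r, hr => by simp [Cnt.RT.toList] at hr
  | .node r' l h, ht, r, hr => by
    simp only [tchk, Bool.and_eq_true] at ht
    simp only [Cnt.RT.toList, List.mem_cons, List.mem_append] at hr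
    rcases hr with rfl | hr | hr
    · exact rchk_sound hF h1 hq ht.1
    · exact tchk_sound hF h1 hq l ht.2.1 r hr
    · exact tchk_sound hF h1 hq h ht.2.2 r hr

end Pool.Agent.Lib.MP_755cca_al.E8
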